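import Pool.Agent.N627.ND.Stm

/-!
# Project ND: the converse direction (helper383)
-/

set_option autoImplicit false

namespace Pool.Agent.N383.ND

open Pool.Agent.N627.ND FirstOrder

variable {V : Type}

/-- there is a walk of length `m` from `x` to `y` -/
def WL (G : SimpleGraph V) : ℕ → V → V → Prop
  | 0, x, y => x = y
  | m + 1, x, y => ∃ z, G.Adj x z ∧ WL G m z y

/-- the variables -/
abbrev Al : Type := Fin 1 ⊕ Fin 1

/-- terms with one more bound variable -/
def tl {n : ℕ} (t : Language.graph.Term (Al ⊕ Fin n)) : Language.graph.Term (Al ⊕ Fin (n + 1)) :=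
  t.relabel (Sum.map id Fin.castSucc)

/-- the formula `there is a walk of length m from t to y` -/
def wf : (m n : ℕ) → Language.graph.Term (Al ⊕ Fin n) → Language.graph.BoundedFormula Al n
  | 0, _, t => t.bdEqual (Language.Term.var (Sum.inl (Sum.inr 0)))
  | m + 1, n, t => (Language.adj.boundedFormula₂ (tl t) (Language.Term.var (Sum.inr (Fin.last n))) ⊓
      wf m (n + 1) (Language.Term.var (Sum.inr (Fin.last n)))).ex

theorem wf_real (G : SimpleGraph V) (v : Al → V) : ∀ (m n : ℕ)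
    (t : Language.graph.Term (Al ⊕ Fin n)) (xs : Fin n → V),
    letI := G.structure
    (wf m n t).Realize v xs ↔ WL G m (t.realize (Sum.elim v xs)) (v (Sum.inr 0)) := by
  let _ := G.structure
  intro m
  induction m with
  | zero =>
    intro n t xs
    show (t.bdEqual _).Realize v xs ↔ _
    rw [Language.BoundedFormula.realize_bdEqual]
    rfl
  | succ m ih =>
    intro n t xs
    show (Language.BoundedFormula.ex _).Realize v xs ↔ _
    rw [Language.BoundedFormula.realize_ex]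
    show _ ↔ ∃ z, G.Adj _ z ∧ WL G m z _
    refine exists_congr fun z => ?_
    rw [Language.BoundedFormula.realize_inf, ih, Language.BoundedFormula.realize_rel₂]
    have e1 : (tl t).realize (Sum.elim v (Fin.snoc xs z : Fin (n + 1) → V)) =
        t.realize (Sum.elim v xs) := by
      unfold tl
      rw [Language.Term.realize_relabel]
      congr 1
      funext i
      rcases i with i | i
      · rfl
      · simp
    have e2 : (Language.Term.var (Sum.inr (Fin.last n)) :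
        Language.graph.Term (Al ⊕ Fin (n + 1))).realize
        (Sum.elim v (Fin.snoc xs z : Fin (n + 1) → V)) = z := by
      simp
    rw [e1, e2]
    rfl

/-- the formula for walks of length `m` -/
def wfm (m : ℕ) : Fm 1 1 := wf m 0 (Language.Term.var (Sum.inl (Sum.inl 0)))

theorem sat_wfm (G : SimpleGraph V) (m : ℕ) (a b : Fin 1 → V) :
    Sat G (wfm m) a b ↔ WL G m (a 0) (b 0) := by
  let _ := G.structure
  unfold Sat wfm Language.Formula.Realize
  rw [wf_real]
  rfl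

/-! ### the subdivided graph of a relation -/

section sub

variable {N r : ℕ} (v : Fin (N + N) → V) (P : Fin (N + N) → Fin (N + N) → ℕ → V)
  (X : Fin N → Fin N → Prop)

/-- the `j`-th vertex of the path from `a` to `b` -/
def pt (a b : Fin N) (j : ℕ) : V := P (Fin.castAdd N a) (Fin.natAdd N b) j

lemma lt_ab (a b : Fin N) : Fin.castAdd N a < Fin.natAdd N b := by
  rw [Fin.lt_def, Fin.val_castAdd, Fin.val_natAdd]
  omega

/-- an edge of a path -/
def ed (r : ℕ) (x y : V) : Prop := ∃ a b, X a b ∧ ∃ j, j ≤ r ∧ x = pt P a b j ∧ y = pt P a b (j + 1)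

/-- the union of the paths of the pairs in `X` -/
def GX (G : SimpleGraph V) (r : ℕ) : SimpleGraph V where
  Adj x y := G.Adj x y ∧ (ed P X r x y ∨ ed P X r y x)
  symm := ⟨fun _ _ h => ⟨h.1.symm, h.2.symm⟩⟩
  loopless := ⟨fun _ h => G.loopless.irrefl _ h.1⟩

variable {v P X} (G : SimpleGraph V)
  (hv : Function.Injective v)
  (h1 : ∀ i j, i < j → P i j 0 = v i ∧ P i j (r + 1) = v j ∧
      ∀ a, a ≤ r → G.Adj (P i j a) (P i j (a + 1)))
  (h2 : ∀ i j a k, i < j → 1 ≤ a → a ≤ r → P i j a ≠ v k)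
  (h3 : ∀ i j k l a b, i < j → k < l → 1 ≤ a → a ≤ r → 1 ≤ b → b ≤ r → P i j a = P k l b →
      i = k ∧ j = l ∧ a = b)

include h1 in
lemma walk_of (a b : Fin N) (hX : X a b) : WL (GX P X G r) (r + 1) (v (Fin.castAdd N a))
    (v (Fin.natAdd N b)) := by
  obtain ⟨k1, k2, k3⟩ := h1 _ _ (lt_ab a b)
  have key : ∀ m, m ≤ r + 1 → WL (GX P X G r) m (pt P a b (r + 1 - m)) (pt P a b (r + 1)) := by
    intro m
    induction m with
    | zero =>
      intro _
      show _ = _
      rw [Nat.sub_zero]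
    | succ m ih =>
      intro hm
      have e : r + 1 - (m + 1) + 1 = r + 1 - m := by omega
      refine ⟨pt P a b (r + 1 - m), ⟨?_, Or.inl ⟨a, b, hX, r + 1 - (m + 1), by omega, rfl, ?_⟩⟩,
        ih (by omega)⟩
      · rw [← e]
        exact k3 _ (by omega)
      · rw [e]
  have := key (r + 1) le_rfl
  rw [Nat.sub_self] at this
  unfold pt at this
  rwa [k1, k2] at this

/-- the vertices near `a` -/
def Lv (v : Fin (N + N) → V) (P : Fin (N + N) → Fin (N + N) → ℕ → V) (X : Fin N → Fin N → Prop)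
    (a : Fin N) (m : ℕ) : Set V :=
  {y | y = v (Fin.castAdd N a) ∨ ∃ b j, X a b ∧ 1 ≤ j ∧ j ≤ m ∧ y = pt P a b j}

lemma Lv_mono (a : Fin N) {m m' : ℕ} (h : m ≤ m') {y : V} (hy : y ∈ Lv v P X a m) :
    y ∈ Lv v P X a m' := by
  rcases hy with hy | ⟨b, j, hX, hj, hjm, hy⟩
  · exact Or.inl hy
  · exact Or.inr ⟨b, j, hX, hj, hjm.trans h, hy⟩

include hv h1 h2 h3 in
lemma Lv_step (a : Fin N) (m : ℕ) (hm : m ≤ r) {y z : V} (hy : y ∈ Lv v P X a m)
    (hyz : (GX P X G r).Adj y z) : z ∈ Lv v P X a (m + 1) := by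
  obtain ⟨-, h | h⟩ := hyz
  · obtain ⟨a', b', hX', j', hj', rfl, rfl⟩ := h
    obtain ⟨k1, k2, k3⟩ := h1 _ _ (lt_ab a' b')
    rcases hy with hy | ⟨b, j, hX, hj, hjm, hy⟩
    · -- the first vertex
      have hj0 : j' = 0 := by
        by_contra h0
        exact h2 _ _ _ _ (lt_ab a' b') (by omega) hj' hy
      subst hj0
      have e1 : v (Fin.castAdd N a') = v (Fin.castAdd N a) := by
        rw [← k1]
        exact hy
      have e2 : a' = a := Fin.castAdd_injective N N (hv e1)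
      subst e2
      exact Or.inr ⟨b', 1, hX', le_rfl, by omega, rfl⟩
    · have hj0 : j' ≠ 0 := by
        rintro rfl
        have e1 : v (Fin.castAdd N a') = pt P a b j := by
          rw [← hy]
          exact k1.symm
        exact h2 _ _ _ _ (lt_ab a b) hj (by omega) e1.symm
      obtain ⟨e1, e2, e3⟩ := h3 _ _ _ _ _ _ (lt_ab a' b') (lt_ab a b) (by omega) hj' hj
        (by omega) hy
      have e1' : a' = a := Fin.castAdd_injective N N e1
      subst e1' e3
      exact Or.inr ⟨b', j' + 1, hX', by omega, by omega, rfl⟩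
  · obtain ⟨a', b', hX', j', hj', rfl, rfl⟩ := h
    obtain ⟨k1, k2, k3⟩ := h1 _ _ (lt_ab a' b')
    rcases hy with hy | ⟨b, j, hX, hj, hjm, hy⟩
    · exfalso
      by_cases h0 : j' = r
      · subst h0
        have e1 : v (Fin.natAdd N b') = v (Fin.castAdd N a) := by
          rw [← k2]
          exact hy
        have e2 := hv e1
        rw [Fin.ext_iff, Fin.val_castAdd, Fin.val_natAdd] at e2
        omega
      · exact h2 _ _ _ _ (lt_ab a' b') (by omega) (by omega) hy
    · have h0 : j' ≠ r := by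
        rintro rfl
        have e1 : v (Fin.natAdd N b') = pt P a b j := by
          rw [← hy]
          exact k2.symm
        exact h2 _ _ _ _ (lt_ab a b) hj (by omega) e1.symm
      obtain ⟨e1, e2, e3⟩ := h3 _ _ _ _ _ _ (lt_ab a' b') (lt_ab a b) (by omega) (by omega) hj
        (by omega) hy
      have e1' : a' = a := Fin.castAdd_injective N N e1
      subst e1'
      by_cases hj0 : j' = 0
      · subst hj0
        left
        exact k1
      · exact Or.inr ⟨b', j', hX', by omega, by omega, rfl⟩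

include hv h1 h2 h3 in
lemma Lv_walk (a : Fin N) {y : V} : ∀ (m k : ℕ) (x : V), k + m ≤ r + 1 → x ∈ Lv v P X a k →
    WL (GX P X G r) m x y → y ∈ Lv v P X a (k + m) := by
  intro m
  induction m with
  | zero =>
    intro k x _ hx hw
    have : x = y := hw
    rwa [← this]
  | succ m ih =>
    rintro k x hk hx ⟨z, hz, hw⟩
    have h4 := Lv_step G hv h1 h2 h3 a k (by omega) hx hz
    have h5 := ih (k + 1) z (by omega) h4 hw
    rwa [show k + 1 + m = k + (m + 1) by omega] at h5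

include hv h1 h2 h3 in
lemma walk_iff (a b : Fin N) : WL (GX P X G r) (r + 1) (v (Fin.castAdd N a))
    (v (Fin.natAdd N b)) ↔ X a b := by
  refine ⟨fun h => ?_, walk_of G h1 a b⟩
  have h4 := Lv_walk G hv h1 h2 h3 a (r + 1) 0 (v (Fin.castAdd N a)) (by omega) (Or.inl rfl) h
  rcases h4 with h4 | ⟨b', j, hX, hj, hjm, h4⟩
  · exfalso
    have e2 := hv h4
    rw [Fin.ext_iff, Fin.val_castAdd, Fin.val_natAdd] at e2
    omega
  · obtain ⟨k1, k2, k3⟩ := h1 _ _ (lt_ab a b')
    by_cases h0 : j ≤ r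
    · exact absurd h4.symm (h2 _ _ _ _ (lt_ab a b') hj h0)
    · have h5 : j = r + 1 := by omega
      subst h5
      have e1 : v (Fin.natAdd N b) = v (Fin.natAdd N b') := by
        rw [h4]
        exact k2
      have e2 := hv e1
      have e3 : b = b' := by
        rw [Fin.ext_iff, Fin.val_natAdd, Fin.val_natAdd] at e2
        exact Fin.ext (by omega)
      rwa [e3]

end sub

open Classical in
theorem cv (hHA : S_HA) : S_CV := by
  intro C hC hD r
  by_contra hcon
  push Not at hcon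
  obtain ⟨c, hc⟩ := hD 1 1 (wfm (r + 1)) (1 / 8) (by norm_num)
  -- the size
  obtain ⟨A, hA⟩ : ∃ A : ℝ, A = 9 * c ^ 2 * ((r : ℝ) + 2) ^ (1 / 4 : ℝ) := ⟨_, rfl⟩
  have hA0 : 0 ≤ A := by rw [hA]; positivity
  obtain ⟨k, hk⟩ := pow_unbounded_of_one_lt (A ^ 2) (by norm_num : (1 : ℝ) < 2)
  obtain ⟨X, hX⟩ := hHA k
  obtain ⟨n, G, hG, v, P, hv, h1, h2, h3⟩ := hcon (2 ^ k + 2 ^ k)
  obtain ⟨G', hG'⟩ : ∃ G' : SimpleGraph (Fin n), G' = GX P X G r := ⟨_, rfl⟩
  have hCG : C n G' := hC n n G' G hG ⟨id, Function.injective_id, fun u w h => by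
    rw [hG'] at h
    exact h.1⟩
  have hH := hc n G' hCG
  -- the points
  obtain ⟨f, hf⟩ : ∃ f : Fin (2 ^ k) → Fin 1 → Fin n, f = fun a _ => v (Fin.castAdd _ a) :=
    ⟨_, rfl⟩
  have hfi : Function.Injective f := by
    intro a b hab
    have h4 := congrFun hab 0
    rw [hf] at h4
    exact Fin.castAdd_injective _ _ (hv h4)
  obtain ⟨χ, hχ, hχ2⟩ := hH (Finset.univ.image f)
  obtain ⟨b, hb⟩ := hX (fun a => χ (f a)) fun a => hχ (f a)
  have h4 := hχ2 fun _ => v (Fin.natAdd _ b)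
  have e1 : ∑ a ∈ (Finset.univ.image f).filter
      (fun a => Sat G' (wfm (r + 1)) a fun _ => v (Fin.natAdd _ b)), χ a =
      ∑ a ∈ Finset.univ.filter (fun a => X a b), χ (f a) := by
    rw [Finset.filter_image, Finset.sum_image fun a _ b _ h => hfi h]
    congr 1
    ext a
    rw [Finset.mem_filter, Finset.mem_filter, sat_wfm, hf, hG']
    exact and_congr_right fun _ => walk_iff G hv h1 h2 h3 a b
  rw [e1] at h4
  -- the number of the points in the union
  obtain ⟨U, hU⟩ : ∃ U : ℕ, U = (Un G' (wfm (r + 1))).ncard := ⟨_, rfl⟩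
  have hUle : U ≤ 2 ^ k * (2 ^ k * (r + 2)) := by
    obtain ⟨F, hF⟩ : ∃ F : Fin (2 ^ k) × Fin (2 ^ k) × Fin (r + 2) → Fin 1 → Fin n,
        F = fun q _ => pt P q.1 q.2.1 q.2.2 := ⟨_, rfl⟩
    have hsub : Un G' (wfm (r + 1)) ⊆ ((Finset.univ.image F : Finset (Fin 1 → Fin n)) :
        Set (Fin 1 → Fin n)) := by
      rintro a ⟨b', hab⟩
      rw [sat_wfm] at hab
      obtain ⟨z, hz, -⟩ := hab
      rw [hG'] at hz
      rw [Finset.mem_coe, Finset.mem_image]
      obtain ⟨-, ⟨p, q, -, j, hj, hx, -⟩ | ⟨p, q, -, j, hj, -, hx⟩⟩ := hz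
      · refine ⟨(p, q, ⟨j, by omega⟩), Finset.mem_univ _, ?_⟩
        rw [hF]
        funext i
        rw [Subsingleton.elim i 0]
        exact hx.symm
      · refine ⟨(p, q, ⟨j + 1, by omega⟩), Finset.mem_univ _, ?_⟩
        rw [hF]
        funext i
        rw [Subsingleton.elim i 0]
        exact hx.symm
    rw [hU]
    refine (Set.ncard_le_ncard hsub (Finset.finite_toSet _)).trans ?_
    rw [Set.ncard_coe_finset]
    refine Finset.card_image_le.trans ?_
    rw [Finset.card_univ, Fintype.card_prod, Fintype.card_prod, Fintype.card_fin, Fintype.card_fin]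
  rw [← hU] at h4
  obtain ⟨Sg, hSg⟩ : ∃ s : ℝ, s = ((∑ a ∈ Finset.univ.filter (fun a => X a b), χ (f a) : ℤ) : ℝ) :=
    ⟨_, rfl⟩
  rw [← hSg] at h4 hb
  obtain ⟨N, hN⟩ : ∃ N : ℝ, N = (2 : ℝ) ^ k := ⟨_, rfl⟩
  rw [← hN] at hb hk
  have hN0 : 0 < N := by rw [hN]; positivity
  have hU' : (U : ℝ) ≤ ((r : ℝ) + 2) * N ^ 2 := by
    have h5 : (U : ℝ) ≤ ((2 ^ k * (2 ^ k * (r + 2)) : ℕ) : ℝ) := by exact_mod_cast hUle
    refine h5.trans (le_of_eq ?_)
    rw [hN]
    push_cast
    ring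
  have h5 : Sg ^ 2 ≤ (c * (U : ℝ) ^ (1 / 8 : ℝ)) ^ 2 := by
    rw [← sq_abs Sg]
    exact pow_le_pow_left₀ (abs_nonneg _) h4 2
  have h6 : ((U : ℝ) ^ (1 / 8 : ℝ)) ^ 2 ≤ ((r : ℝ) + 2) ^ (1 / 4 : ℝ) * N ^ (1 / 2 : ℝ) := by
    rw [← Real.rpow_natCast ((U : ℝ) ^ (1 / 8 : ℝ)) 2, ← Real.rpow_mul (Nat.cast_nonneg U)]
    have e2 : (1 / 8 : ℝ) * ((2 : ℕ) : ℝ) = 1 / 4 := by norm_num
    rw [e2]
    have e3 : N ^ (1 / 2 : ℝ) = (N ^ 2) ^ (1 / 4 : ℝ) := by
      rw [← Real.rpow_natCast N 2, ← Real.rpow_mul hN0.le]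
      norm_num
    rw [e3, ← Real.mul_rpow (by positivity) (by positivity)]
    exact Real.rpow_le_rpow (Nat.cast_nonneg U) hU' (by norm_num)
  have h7 : N ≤ A * N ^ (1 / 2 : ℝ) := by
    calc N ≤ 9 * Sg ^ 2 := hb
      _ ≤ 9 * (c * (U : ℝ) ^ (1 / 8 : ℝ)) ^ 2 := by linarith
      _ = 9 * c ^ 2 * ((U : ℝ) ^ (1 / 8 : ℝ)) ^ 2 := by ring
      _ ≤ 9 * c ^ 2 * (((r : ℝ) + 2) ^ (1 / 4 : ℝ) * N ^ (1 / 2 : ℝ)) :=
          mul_le_mul_of_nonneg_left h6 (by positivity)
      _ = A * N ^ (1 / 2 : ℝ) := by rw [hA]; ring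
  have h8 : N ^ (1 / 2 : ℝ) * N ^ (1 / 2 : ℝ) = N := by
    rw [← Real.rpow_add hN0]
    norm_num
  have h9 : 0 < N ^ (1 / 2 : ℝ) := Real.rpow_pos_of_pos hN0 _
  have h10 : N ^ (1 / 2 : ℝ) ≤ A := by
    by_contra h11
    have h12 := mul_lt_mul_of_pos_right (not_le.1 h11) h9
    rw [h8] at h12
    linarith
  have h11 : N ≤ A ^ 2 := by
    rw [← h8, pow_two]
    exact mul_le_mul h10 h10 h9.le hA0
  linarith

end Pool.Agent.N383.ND

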